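import Pool.Agent.Lib.lead.CXGraphRed

namespace Pool.Agent.Results.MP_58e31d_lc.Ext

open Pool.Agent.Lib.CX Sum

/-- `χ` is an `H`-colouring of the input graph `a` (a listed pair `(u, u)` is a loop) -/
def Hom {W : Type} (H : W → W → Prop) (a : Gr) (χ : Fin a.n → W) : Prop := ∀ u v, a.arc u v → H (χ u) (χ v)

/-- list `F`-colouring: the list of `u` consists of the colours `c` with `(u, c)` listed -/
def ListCol {m : ℕ} (F : Fin m → Fin m → Prop) (x : Gr × List (ℕ × ℕ)) : Prop :=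
  ∃ χ, Hom F x.1 χ ∧ ∀ u, (u.1, (χ u).1) ∈ x.2

/-- `(H, C, K)`-colouring -/
def WCol {V C : Type} (H : V ⊕ C → V ⊕ C → Prop) (K : C → ℕ) (a : Gr) : Prop :=
  ∃ χ, Hom H a χ ∧ ∀ c, {u | χ u = inr c}.ncard = K c

theorem ncard_range (n : ℕ) (P : ℕ → Bool) : {u : Fin n | P u.1}.ncard = ((List.range n).filter P).length := by
  rw [← Set.ncard_image_of_injective _ Fin.val_injective,
    ← List.toFinset_card_of_nodup (List.nodup_range.filter _), ← Set.ncard_coe_finset]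
  congr 1
  ext x
  simp only [Set.mem_image, Set.mem_ofPred_eq, List.coe_toFinset, List.mem_filter, List.mem_range]
  exact ⟨by rintro ⟨u, h, rfl⟩; exact ⟨u.2, h⟩, fun ⟨h1, h2⟩ => ⟨⟨x, h1⟩, h2, rfl⟩⟩

theorem np {V C : Type} [Finite V] [Finite C] [Inhabited C] (H : V ⊕ C → V ⊕ C → Prop) (K : C → ℕ) :
    InNP (WCol H K) := by
  classical
  obtain ⟨N, ⟨e⟩⟩ := Finite.exists_equiv_fin (V ⊕ C)
  have := Fintype.ofFinite (V ⊕ C)
  have := Fintype.ofFinite C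
  obtain ⟨LH, hH⟩ : ∃ L : List (ℕ × ℕ), ∀ p, p ∈ L ↔ ∃ x y, H x y ∧ p = ((e x).1, (e y).1) :=
    ⟨((Finset.univ.filter fun q : (V ⊕ C) × (V ⊕ C) => H q.1 q.2).toList).map fun q => ((e q.1).1, (e q.2).1),
      fun p => by
        simp only [List.mem_map, Finset.mem_toList, Finset.mem_filter, Finset.mem_univ, true_and]
        exact ⟨by rintro ⟨q, h, rfl⟩; exact ⟨_, _, h, rfl⟩, by rintro ⟨x, y, h, rfl⟩; exact ⟨(x, y), h, rfl⟩⟩⟩
  obtain ⟨LK, hK⟩ : ∃ L : List (ℕ × ℕ), ∀ p, p ∈ L ↔ ∃ c, p = ((e (inr c)).1, K c) :=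
    ⟨(Finset.univ.toList).map fun c => ((e (inr c)).1, K c), fun p => by simp [eq_comm]⟩
  refine InNP.of_cert' (fun (a : Gr) (c : List ℕ) => (∀ u < a.n, c.getD u 0 < N) ∧
    (∀ p ∈ a.2, p.1 < a.n → p.2 < a.n → (c.getD p.1 0, c.getD p.2 0) ∈ LH) ∧
    ∀ q ∈ LK, ((List.range a.n).filter fun u => c.getD u 0 = q.1).length = q.2)
    (i := fun _ _ => inferInstance) (fun a => a.n * (3 * N + 3) + 2) (by fun_prop) (by fun_prop) ?_ ?_
  · rintro a c ⟨h1, h2, h3⟩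
    refine ⟨fun u => e.symm ⟨_, h1 u u.2⟩, fun u v h => ?_, fun k => ?_⟩
    · obtain ⟨x, y, h4, h5⟩ := (hH _).1 (h2 _ h u.2 v.2)
      simp only [Prod.mk.injEq] at h5
      simp only [h5.1, h5.2, Fin.eta, Equiv.symm_apply_apply, h4]
    · refine Eq.trans ?_ (h3 _ ((hK _).2 ⟨k, rfl⟩))
      rw [← ncard_range]
      congr 1
      ext u
      simp [Equiv.symm_apply_eq, Fin.ext_iff]
  · rintro a ⟨χ, h1, h2⟩
    have g : ∀ u : Fin a.n, (List.ofFn fun u => (e (χ u)).1).getD u 0 = (e (χ u)).1 := fun u => by simp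
    refine ⟨List.ofFn fun u => (e (χ u)).1, ?_, fun u hu => (g ⟨u, hu⟩).trans_lt (Fin.is_lt _), fun p hp l1 l2 => ?_,
      fun q hq => ?_⟩
    · have := size_list_le (l := List.ofFn fun u => (e (χ u)).1) (B := 3 * N + 2) fun x hx => by
        obtain ⟨u, rfl⟩ := List.mem_ofFn.1 hx
        have := size_nat_le (e (χ u)).1
        have := (e (χ u)).2
        omega
      simpa using this
    · rw [g ⟨_, l1⟩, g ⟨_, l2⟩]
      exact (hH _).2 ⟨_, _, h1 ⟨_, l1⟩ ⟨_, l2⟩ hp, rfl⟩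
    · obtain ⟨k, rfl⟩ := (hK _).1 hq
      refine Eq.trans ?_ (h2 k)
      rw [← ncard_range]
      congr 1
      ext u
      simp [← Fin.ext_iff]

theorem wcol_mk {V C N : Type} [DecidableEq N] (H : V ⊕ C → V ⊕ C → Prop) (K : C → ℕ) [Inhabited C] (vs : List N)
    (es : List (N × N)) : WCol H K (mkGr vs es) ↔ ∃ χ : N → V ⊕ C,
      (∀ x ∈ vs, ∀ y ∈ vs, (x, y) ∈ es → H (χ x) (χ y)) ∧ ∀ c, {x | x ∈ vs ∧ χ x = inr c}.ncard = K c := by
  have key : ∀ (χ : N → V ⊕ C) c, {u | χ (mkGrEquiv vs es u).1 = inr c}.ncard = {x | x ∈ vs ∧ χ x = inr c}.ncard :=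
    fun χ c => by
      rw [← Set.ncard_image_of_injective _ (Subtype.val_injective.comp (mkGrEquiv vs es).injective)]
      congr 1
      ext x
      exact ⟨by rintro ⟨u, h, rfl⟩; exact ⟨(mkGrEquiv vs es u).2, h⟩,
        fun ⟨h1, h2⟩ => ⟨(mkGrEquiv vs es).symm ⟨x, h1⟩, by simpa using h2, by simp⟩⟩
  constructor
  · rintro ⟨χ, h1, h2⟩
    classical
    refine ⟨fun x => if h : x ∈ vs then χ ((mkGrEquiv vs es).symm ⟨x, h⟩) else inr default, fun x hx y hy h => ?_,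
      fun c => ?_⟩
    · simp only [hx, hy, dif_pos]
      exact h1 _ _ ((mkGr_arc _ _ _ _).2 (by simpa using h))
    · rw [← key, ← h2]
      congr 1
      ext u
      have : (mkGrEquiv vs es u).1 ∈ vs := (mkGrEquiv vs es u).2
      simp [this]
  · rintro ⟨χ, h1, h2⟩
    exact ⟨fun u => χ (mkGrEquiv vs es u).1, fun u v h =>
      h1 _ (mkGrEquiv vs es u).2 _ (mkGrEquiv vs es v).2 ((mkGr_arc _ _ _ _).1 h), fun c => (key χ c).trans (h2 c)⟩

/-- the extension: `(i, false)` sees all old vertices except `i`, and `(i, true)` is a pendant vertex at it -/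
def HH {m : ℕ} (F : Fin m → Fin m → Prop) : Fin m ⊕ Fin (m + 2) × Bool → Fin m ⊕ Fin (m + 2) × Bool → Prop
  | inl a, inl b => F a b
  | inl a, inr c => c.2 = false ∧ a.1 ≠ c.1.1
  | inr c, inl a => c.2 = false ∧ a.1 ≠ c.1.1
  | inr c, inr d => c.1 = d.1 ∧ c.2 ≠ d.2

def KK {m : ℕ} (c : Fin (m + 2) × Bool) : ℕ := if c.2 then c.1.1 + 2 else 1

def vs (m : ℕ) (x : Gr × List (ℕ × ℕ)) : List (ℕ × ℕ × ℕ) :=
  (List.range x.1.n).map (fun u => (0, u, 0)) ++ (List.range (m + 2)).flatMap fun i =>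
    (1, i, 0) :: (List.range (i + 2)).map fun j => (2, i, j)

def es (m : ℕ) (x : Gr × List (ℕ × ℕ)) : List ((ℕ × ℕ × ℕ) × ℕ × ℕ × ℕ) :=
  x.1.2.map (fun p => ((0, p.1, 0), (0, p.2, 0))) ++
    ((List.range x.1.n ×ˢ List.range (m + 2)).filter fun p => m ≤ p.2 ∨ p ∉ x.2).map
      (fun p => ((0, p.1, 0), (1, p.2, 0))) ++
    (List.range (m + 2)).flatMap fun i => (List.range (i + 2)).map fun j => ((2, i, j), (1, i, 0))

theorem mem_vs {m x y} : y ∈ vs m x ↔ (∃ u < x.1.n, y = (0, u, 0)) ∨ (∃ i < m + 2, y = (1, i, 0)) ∨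
    ∃ i < m + 2, ∃ j < i + 2, y = (2, i, j) := by
  simp only [vs, List.mem_append, List.mem_map, List.mem_range, List.mem_flatMap, List.mem_cons]
  grind

theorem mem_es {m x y z} : (y, z) ∈ es m x ↔ (∃ p ∈ x.1.2, y = (0, p.1, 0) ∧ z = (0, p.2, 0)) ∨
    (∃ u < x.1.n, ∃ i < m + 2, (m ≤ i ∨ (u, i) ∉ x.2) ∧ y = (0, u, 0) ∧ z = (1, i, 0)) ∨
    ∃ i < m + 2, ∃ j < i + 2, y = (2, i, j) ∧ z = (1, i, 0) := by
  simp only [es, List.mem_append, List.mem_map, List.mem_range, List.mem_flatMap, List.mem_filter, Prod.exists,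
    List.mem_product, Prod.mk.injEq, decide_eq_true_eq, or_assoc, and_assoc, exists_and_left, @eq_comm _ y,
    @eq_comm _ z]

theorem fwd {m} {F : Fin m → Fin m → Prop} {x} (h : ListCol F x) : WCol (HH F) KK (mkGr (vs m x) (es m x)) := by
  obtain ⟨χ, h1, h2⟩ := h
  refine (wcol_mk _ _ _ _).2 ⟨fun y => if y.1 = 0 then (if h : y.2.1 < x.1.n then inl (χ ⟨_, h⟩) else inr default)
    else inr (Fin.ofNat _ y.2.1, decide (y.1 = 2)), fun y hy z hz h => ?_, fun ⟨i, b⟩ => ?_⟩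
  · rcases mem_es.1 h with ⟨p, hp, rfl, rfl⟩ | ⟨u, hu, i, hi, h, rfl, rfl⟩ | ⟨i, hi, j, hj, rfl, rfl⟩
    · have l1 : p.1 < x.1.n := by simpa [mem_vs] using hy
      have l2 : p.2 < x.1.n := by simpa [mem_vs] using hz
      simpa [l1, l2, HH] using h1 ⟨_, l1⟩ ⟨_, l2⟩ hp
    · have := h2 ⟨u, hu⟩
      have := (χ ⟨u, hu⟩).2
      simp [hu, HH, Nat.mod_eq_of_lt hi]
      grind
    · simp [HH]
  · cases b
    · refine Eq.trans ?_ (Set.ncard_singleton ((1, i.1, 0) : ℕ × ℕ × ℕ))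
      congr 1
      ext y
      simp only [Set.mem_ofPred_eq, Set.mem_singleton_iff]
      constructor
      · rintro ⟨hy, h⟩
        rcases mem_vs.1 hy with ⟨u, hu, rfl⟩ | ⟨k, hk, rfl⟩ | ⟨k, hk, j, hj, rfl⟩
        · simp [hu] at h
        · simpa [Fin.ext_iff, Nat.mod_eq_of_lt hk] using h
        · simp at h
      · rintro rfl
        exact ⟨mem_vs.2 (.inr (.inl ⟨_, i.2, rfl⟩)), by simp⟩
    · have : ((fun j => ((2, i.1, j) : ℕ × ℕ × ℕ)) '' Set.Iio (i.1 + 2)).ncard = i.1 + 2 := by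
        rw [Set.ncard_image_of_injective _ (fun a b h => by simpa using h)]; simp
      refine Eq.trans ?_ this
      congr 1
      ext y
      simp only [Set.mem_ofPred_eq]
      constructor
      · rintro ⟨hy, h⟩
        rcases mem_vs.1 hy with ⟨u, hu, rfl⟩ | ⟨k, hk, rfl⟩ | ⟨k, hk, j, hj, rfl⟩
        · simp [hu] at h
        · simp at h
        · obtain rfl : k = i.1 := by simpa [Fin.ext_iff, Nat.mod_eq_of_lt hk] using h
          exact ⟨j, hj, rfl⟩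
      · rintro ⟨j, hj, rfl⟩
        exact ⟨mem_vs.2 (.inr (.inr ⟨_, i.2, _, hj, rfl⟩)), by simp⟩

theorem bwd {m} {F : Fin m → Fin m → Prop} {x} (h : WCol (HH F) KK (mkGr (vs m x) (es m x))) : ListCol F x := by
  obtain ⟨χ, h1, h2⟩ := (wcol_mk _ _ _ _).1 h
  have uq : ∀ i y z, y ∈ vs m x → z ∈ vs m x → χ y = inr (i, false) → χ z = inr (i, false) → y = z :=
    fun i y z hy hz e1 e2 => by
      obtain ⟨w, hw⟩ := Set.ncard_eq_one.1 (h2 (i, false))
      exact (show y ∈ ({w} : Set _) from hw ▸ ⟨hy, e1⟩).trans (show z ∈ ({w} : Set _) from hw ▸ ⟨hz, e2⟩).symm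
  have n1 : ∀ i w, HH F (inr (i, true)) w → w = inr (i, false) := by
    rintro i (a | ⟨k, _ | _⟩) h <;> simp_all [HH]
  have n2 : ∀ i w, HH F w (inr (i, true)) → w = inr (i, false) := by
    rintro i (a | ⟨k, _ | _⟩) h <;> simp_all [HH]
  have v1 : ∀ i < m + 2, (1, i, 0) ∈ vs m x := fun i hi => mem_vs.2 (.inr (.inl ⟨i, hi, rfl⟩))
  have v2 : ∀ i < m + 2, ∀ j < i + 2, (2, i, j) ∈ vs m x := fun i hi j hj =>
    mem_vs.2 (.inr (.inr ⟨i, hi, j, hj, rfl⟩))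
  have e2 : ∀ i < m + 2, ∀ j < i + 2, HH F (χ (2, i, j)) (χ (1, i, 0)) := fun i hi j hj =>
    h1 _ (v2 i hi j hj) _ (v1 i hi) (mem_es.2 (.inr (.inr ⟨i, hi, j, hj, rfl, rfl⟩)))
  have v0 : ∀ u < x.1.n, (0, u, 0) ∈ vs m x := fun u hu => mem_vs.2 (.inl ⟨u, hu, rfl⟩)
  have e1 : ∀ u < x.1.n, ∀ i < m + 2, (m ≤ i ∨ (u, i) ∉ x.2) → HH F (χ (0, u, 0)) (χ (1, i, 0)) :=
    fun u hu i hi h => h1 _ (v0 u hu) _ (v1 i hi) (mem_es.2 (.inr (.inl ⟨u, hu, i, hi, h, rfl, rfl⟩)))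
  have p0 : ∀ u < x.1.n, ∀ i, χ (0, u, 0) ≠ inr (i, true) := fun u hu i e => by
    have a1 := e1 u hu m (by omega) (.inl le_rfl)
    have a2 := e1 u hu (m + 1) (by omega) (.inl (by omega))
    rw [e] at a1 a2
    simpa using uq i _ _ (v1 _ (by omega)) (v1 _ (by omega)) (n1 _ _ a1) (n1 _ _ a2)
  have pd : ∀ i y, y ∈ vs m x → χ y = inr (i, true) →
      ∃ k < m + 2, ∃ j < k + 2, y = (2, k, j) ∧ χ (1, k, 0) = inr (i, false) := fun i y hy e => by
    rcases mem_vs.1 hy with ⟨u, hu, rfl⟩ | ⟨k, hk, rfl⟩ | ⟨k, hk, j, hj, rfl⟩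
    · exact (p0 u hu i e).elim
    · have a1 := e2 k hk 0 (by omega)
      have a2 := e2 k hk 1 (by omega)
      rw [e] at a1 a2
      simpa using uq i _ _ (v2 k hk 0 (by omega)) (v2 k hk 1 (by omega)) (n2 _ _ a1) (n2 _ _ a2)
    · exact ⟨k, hk, j, hj, rfl, n1 _ _ (e ▸ e2 k hk j hj)⟩
  have ex : ∀ i : Fin (m + 2), ∃ k : Fin (m + 2), i.1 ≤ k.1 ∧ χ (1, k, 0) = inr (i, false) := fun i => by
    have c := h2 (i, true)
    obtain ⟨y, hy, e⟩ := Set.nonempty_of_ncard_ne_zero (s := {y | y ∈ vs m x ∧ χ y = inr (i, true)})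
      (by rw [c]; simp [KK])
    obtain ⟨k, hk, -, -, -, e'⟩ := pd i y hy e
    refine ⟨⟨k, hk⟩, ?_, e'⟩
    have : {y | y ∈ vs m x ∧ χ y = inr (i, true)} ⊆ (fun j => ((2, k, j) : ℕ × ℕ × ℕ)) '' Set.Iio (k + 2) := by
      rintro z ⟨hz, e⟩
      obtain ⟨k', hk', j, hj, rfl, e''⟩ := pd i z hz e
      obtain rfl : k' = k := by simpa using uq i _ _ (v1 _ hk') (v1 _ hk) e'' e'
      exact ⟨j, hj, rfl⟩
    have := (Set.ncard_le_ncard this ((Set.finite_Iio _).image _)).trans (Set.ncard_image_le (Set.finite_Iio _))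
    rw [c] at this
    simpa [KK] using this
  choose k k1 k2 using ex
  have inj : Function.Injective k := fun a b h => by
    have := k2 a
    rw [h, k2 b] at this
    exact (congrArg Prod.fst (inr_injective this)).symm
  have kk : ∀ i, i.1 = (k i).1 := fun i => (Finset.sum_eq_sum_iff_of_le fun i _ => k1 i).1
    (Function.Bijective.sum_comp (Finite.injective_iff_bijective.1 inj) Fin.val).symm i (Finset.mem_univ _)
  have xa : ∀ i : Fin (m + 2), χ (1, i, 0) = inr (i, false) := fun i => (kk i) ▸ k2 i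
  have ex : ∀ u : Fin x.1.n, ∃ c, χ (0, u, 0) = inl c := fun u => by
    rcases e : χ (0, u, 0) with c | ⟨i, _ | _⟩
    · exact ⟨c, rfl⟩
    · simpa using uq i _ _ (v0 _ u.2) (v1 _ i.2) e (xa i)
    · exact (p0 _ u.2 i e).elim
  choose c hc using ex
  refine ⟨c, fun u v h => ?_, fun u => ?_⟩
  · have := h1 _ (v0 _ u.2) _ (v0 _ v.2) (mem_es.2 (.inl ⟨_, h, rfl, rfl⟩))
    rwa [hc, hc] at this
  · by_contra h
    have l : (c u).1 < m + 2 := by omega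
    have := e1 _ u.2 _ l (.inr h)
    rw [hc, xa ⟨_, l⟩] at this
    exact this.2 rfl

theorem result (m : ℕ) (F : Fin m → Fin m → Prop) (hF : ∀ a b, F a b → F b a) (h : NPComplete (ListCol F)) :
    ∃ (C : Type) (_ : Finite C) (H : Fin m ⊕ C → Fin m ⊕ C → Prop) (K : C → ℕ),
      (∀ a b, H a b → H b a) ∧ (∀ a b, H (inl a) (inl b) ↔ F a b) ∧ NPComplete (WCol H K) := by
  refine ⟨Fin (m + 2) × Bool, inferInstance, HH F, KK, ?_, fun _ _ => Iff.rfl, np _ _,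
    h.2.red ⟨fun x => mkGr (vs m x) (es m x), by unfold vs es; fun_prop, fun x => ⟨fwd, bwd⟩⟩⟩
  rintro (a | c) (b | d) h
  · exact hF _ _ h
  · exact h
  · exact h
  · exact ⟨h.1.symm, h.2.symm⟩

end Pool.Agent.Results.MP_58e31d_lc.Ext
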